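import Mathlib
import Pool.Agent.H50.G.S.H483R2.ED_BHK
import Pool.Agent.H50.G.S.H410R2.ENIface
/-!
Task EN1 of helper410: the fundamental lemma (Brun-Hooley) with weights and a sum of errors.
-/

set_option autoImplicit false

open Finset

namespace Pool.Agent.H20R2.FL

open Pool.Agent.Helper112.LP Pool.Agent.Helper112.LP.Kba Pool.Agent.Helper112.LP.Kbh

theorem w_expand (m : ℕ) (g : ℕ → ℝ) (S : Finset ℕ) (w : ℕ → ℝ) (n : ℕ → ℕ) (X : ℝ)
    (F : Fin m → Finset (Finset ℕ)) (c : Fin m → Finset ℕ → ℝ) (hc : ∀ i U, |c i U| ≤ 1)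
    (er : (Fin m → Finset ℕ) → ℝ)
    (H : ∀ T ∈ Fintype.piFinset F,
      |∑ ω ∈ S.filter (fun ω => ∀ i, ∀ l ∈ T i, l ∣ n ω), w ω - X * ∏ i, ∏ l ∈ T i, g l|
        ≤ er T) :
    |(∑ ω ∈ S, w ω * ∏ i, ∑ U ∈ F i, if ∀ l ∈ U, l ∣ n ω then c i U else 0) -
      X * ∏ i, ∑ U ∈ F i, c i U * ∏ l ∈ U, g l| ≤ ∑ T ∈ Fintype.piFinset F, er T := by
  have h1 : (∑ ω ∈ S, w ω * ∏ i, ∑ U ∈ F i, if ∀ l ∈ U, l ∣ n ω then c i U else 0) =
      ∑ T ∈ Fintype.piFinset F, (∏ i, c i (T i)) *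
        ∑ ω ∈ S.filter (fun ω => ∀ i, ∀ l ∈ T i, l ∣ n ω), w ω := by
    have h2 : ∀ ω ∈ S, (w ω * ∏ i, ∑ U ∈ F i, if ∀ l ∈ U, l ∣ n ω then c i U else 0) =
        ∑ T ∈ Fintype.piFinset F, (∏ i, c i (T i)) *
          (if ∀ i, ∀ l ∈ T i, l ∣ n ω then w ω else 0) := by
      intro ω _
      rw [prod_univ_sum, mul_sum]
      apply sum_congr rfl
      intro T _
      rw [Fintype.prod_ite_zero]
      split_ifs
      · ring
      · simp
    rw [sum_congr rfl h2, sum_comm]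
    apply sum_congr rfl
    intro T _
    rw [← mul_sum, sum_filter]
  have h3 : X * ∏ i, ∑ U ∈ F i, c i U * ∏ l ∈ U, g l =
      ∑ T ∈ Fintype.piFinset F, (∏ i, c i (T i)) * (X * ∏ i, ∏ l ∈ T i, g l) := by
    rw [prod_univ_sum, mul_sum]
    apply sum_congr rfl
    intro T _
    rw [prod_mul_distrib]
    ring
  rw [h1, h3, ← sum_sub_distrib]
  refine (abs_sum_le_sum_abs _ _).trans ?_
  apply sum_le_sum
  intro T hT
  rw [← mul_sub, abs_mul]
  have h4 : |∏ i, c i (T i)| ≤ 1 := by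
    rw [abs_prod]
    exact prod_le_one (fun _ _ => abs_nonneg _) (fun i _ => hc i (T i))
  have h5 := H T hT
  calc |∏ i, c i (T i)| * |∑ ω ∈ S.filter (fun ω => ∀ i, ∀ l ∈ T i, l ∣ n ω), w ω -
        X * ∏ i, ∏ l ∈ T i, g l| ≤ 1 * er T :=
        mul_le_mul h4 h5 (abs_nonneg _) zero_le_one
    _ = er T := one_mul _

theorem w_abs (m : ℕ) (P : Fin m → Finset ℕ)
    (b : Fin m → ℕ) (hb : ∀ i, Even (b i)) (g : ℕ → ℝ)
    (S : Finset ℕ) (w : ℕ → ℝ) (hw : ∀ ω ∈ S, 0 ≤ w ω) (n : ℕ → ℕ) (X : ℝ)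
    (er : (Fin m → Finset ℕ) → ℝ)
    (H : ∀ T ∈ Fintype.piFinset (fun i => (P i).powerset.filter (fun U => U.card ≤ b i + 1)),
      |∑ ω ∈ S.filter (fun ω => ∀ i, ∀ l ∈ T i, l ∣ n ω), w ω - X * ∏ i, ∏ l ∈ T i, g l|
        ≤ er T) :
    ∑ ω ∈ S.filter (fun ω => ∀ i, ∀ l ∈ P i, ¬ l ∣ n ω), w ω ≤
      X * (∏ i, ∑ U ∈ (P i).powerset.filter (fun U => U.card ≤ b i), (-1) ^ U.card * ∏ l ∈ U, g l)
      + ∑ T ∈ Fintype.piFinset (fun i => (P i).powerset.filter (fun U => U.card ≤ b i + 1)), er T ∧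
    X * ((∏ i, ∑ U ∈ (P i).powerset.filter (fun U => U.card ≤ b i), (-1) ^ U.card * ∏ l ∈ U, g l)
      - ∑ k, (∑ U ∈ (P k).powersetCard (b k + 1), ∏ l ∈ U, g l) *
        ∏ i ∈ univ.erase k, ∑ U ∈ (P i).powerset.filter (fun U => U.card ≤ b i),
          (-1) ^ U.card * ∏ l ∈ U, g l)
      - (m + 1) * ∑ T ∈ Fintype.piFinset (fun i => (P i).powerset.filter
          (fun U => U.card ≤ b i + 1)), er T ≤
      ∑ ω ∈ S.filter (fun ω => ∀ i, ∀ l ∈ P i, ¬ l ∣ n ω), w ω := by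
  classical
  set x : ℕ → Fin m → ℝ := fun ω i => if ∀ l ∈ P i, ¬ l ∣ n ω then (1 : ℝ) else 0 with hx
  set y : ℕ → Fin m → ℝ := fun ω i => ∑ U ∈ (P i).powerset.filter (fun U => U.card ≤ b i),
        if ∀ l ∈ U, l ∣ n ω then ((-1 : ℝ)) ^ U.card else 0 with hy
  set e : ℕ → Fin m → ℝ := fun ω i => ∑ U ∈ powersetCard (b i + 1) (P i),
        if ∀ l ∈ U, l ∣ n ω then (1 : ℝ) else 0 with he
  have hloc : ∀ ω i, 0 ≤ x ω i ∧ x ω i ≤ y ω i ∧ y ω i - x ω i ≤ e ω i := fun ω i =>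
    bh_local (P i) (b i) (hb i) (n ω)
  set Q : ℝ := ∑ T ∈ Fintype.piFinset (fun i => (P i).powerset.filter
          (fun U => U.card ≤ b i + 1)), er T with hQ
  set Tr : Fin m → ℝ := fun i => ∑ U ∈ (P i).powerset.filter (fun U => U.card ≤ b i),
    (-1) ^ U.card * ∏ l ∈ U, g l with hTr
  set Er : Fin m → ℝ := fun i => ∑ U ∈ (P i).powersetCard (b i + 1), ∏ l ∈ U, g l with hEr
  have hcard : ∑ ω ∈ S.filter (fun ω => ∀ i, ∀ l ∈ P i, ¬ l ∣ n ω), w ω =
      ∑ ω ∈ S, w ω * ∏ i, x ω i := by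
    rw [sum_filter]
    apply sum_congr rfl
    intro ω _
    simp only [hx]
    rw [Fintype.prod_ite_zero]
    simp
  have hsub1 : ∀ i, (P i).powerset.filter (fun U => U.card ≤ b i) ⊆
      (P i).powerset.filter (fun U => U.card ≤ b i + 1) := by
    intro i U hU
    rw [mem_filter] at hU ⊢
    exact ⟨hU.1, by omega⟩
  have hsub2 : ∀ i, powersetCard (b i + 1) (P i) ⊆
      (P i).powerset.filter (fun U => U.card ≤ b i + 1) := by
    intro i U hU
    rw [mem_powersetCard] at hU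
    rw [mem_filter, mem_powerset]
    exact ⟨hU.1, hU.2.le⟩
  have her0 : ∀ T ∈ Fintype.piFinset (fun i => (P i).powerset.filter
      (fun U => U.card ≤ b i + 1)), 0 ≤ er T := fun T hT => (abs_nonneg _).trans (H T hT)
  -- (a)
  have hA : |(∑ ω ∈ S, w ω * ∏ i, y ω i) - X * ∏ i, Tr i| ≤ Q := by
    have h0 : Fintype.piFinset (fun i => (P i).powerset.filter (fun U => U.card ≤ b i)) ⊆
        Fintype.piFinset (fun i => (P i).powerset.filter (fun U => U.card ≤ b i + 1)) :=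
      Fintype.piFinset_subset _ _ hsub1
    have h1 := w_expand m g S w n X
      (fun i => (P i).powerset.filter (fun U => U.card ≤ b i)) (fun _ U => (-1) ^ U.card)
      (by intro i U; rw [abs_neg_one_pow]) er (fun T hT => H T (h0 hT))
    refine h1.trans ?_
    exact sum_le_sum_of_subset_of_nonneg h0 (fun T hT _ => her0 T hT)
  -- (b)
  have hB : ∀ k : Fin m, |(∑ ω ∈ S, w ω * (e ω k * ∏ i ∈ univ.erase k, y ω i)) -
      X * (Er k * ∏ i ∈ univ.erase k, Tr i)| ≤ Q := by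
    intro k
    have h0 : Fintype.piFinset (fun i => if i = k then powersetCard (b i + 1) (P i) else
        (P i).powerset.filter (fun U => U.card ≤ b i)) ⊆
        Fintype.piFinset (fun i => (P i).powerset.filter (fun U => U.card ≤ b i + 1)) := by
      apply Fintype.piFinset_subset
      intro i
      split_ifs
      · exact hsub2 i
      · exact hsub1 i
    have h1 := w_expand m g S w n X
      (fun i => if i = k then powersetCard (b i + 1) (P i) else
        (P i).powerset.filter (fun U => U.card ≤ b i))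
      (fun i U => if i = k then 1 else (-1) ^ U.card)
      (by intro i U; split_ifs <;> simp) er (fun T hT => H T (h0 hT))
    have h2 : ∀ f1 f2 : Fin m → ℝ, (∏ i, if i = k then f1 i else f2 i) =
        f1 k * ∏ i ∈ univ.erase k, f2 i := by
      intro f1 f2
      rw [← mul_prod_erase univ _ (mem_univ k), if_pos rfl]
      congr 1
      apply prod_congr rfl
      intro i hi
      rw [if_neg (ne_of_mem_erase hi)]
    have h3 : (∑ ω ∈ S, w ω * (e ω k * ∏ i ∈ univ.erase k, y ω i)) =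
        ∑ ω ∈ S, w ω * ∏ i, ∑ U ∈ (if i = k then powersetCard (b i + 1) (P i) else
        (P i).powerset.filter (fun U => U.card ≤ b i)), if ∀ l ∈ U, l ∣ n ω then
          (if i = k then (1 : ℝ) else (-1) ^ U.card) else 0 := by
      apply sum_congr rfl
      intro ω _
      rw [← h2 (e ω) (y ω)]
      congr 1
      apply prod_congr rfl
      intro i _
      by_cases hik : i = k
      · simp only [if_pos hik, he]
      · simp only [if_neg hik, hy]
    have h4 : X * (Er k * ∏ i ∈ univ.erase k, Tr i) =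
        X * ∏ i, ∑ U ∈ (if i = k then powersetCard (b i + 1) (P i) else
        (P i).powerset.filter (fun U => U.card ≤ b i)),
          (if i = k then (1 : ℝ) else (-1) ^ U.card) * ∏ l ∈ U, g l := by
      rw [← h2 Er Tr]
      congr 1
      apply prod_congr rfl
      intro i _
      by_cases hik : i = k
      · simp only [if_pos hik, hEr, one_mul]
      · simp only [if_neg hik, hTr]
    rw [h3, h4]
    refine h1.trans ?_
    exact sum_le_sum_of_subset_of_nonneg h0 (fun T hT _ => her0 T hT)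
  rw [hcard]
  constructor
  · have h1 : ∑ ω ∈ S, w ω * ∏ i, x ω i ≤ ∑ ω ∈ S, w ω * ∏ i, y ω i := by
      apply sum_le_sum
      intro ω hω
      exact mul_le_mul_of_nonneg_left
        (prod_le_prod (fun i _ => (hloc ω i).1) (fun i _ => (hloc ω i).2.1)) (hw ω hω)
    have h2 := (abs_le.1 hA).2
    linarith
  · have h1 : ∑ ω ∈ S, w ω * ∏ i, y ω i - ∑ ω ∈ S, w ω * ∏ i, x ω i ≤
        ∑ k, ∑ ω ∈ S, w ω * (e ω k * ∏ i ∈ univ.erase k, y ω i) := by
      rw [sum_comm, ← sum_sub_distrib]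
      apply sum_le_sum
      intro ω hω
      rw [← mul_sub, ← mul_sum]
      exact mul_le_mul_of_nonneg_left (bh_prod_sub univ (x ω) (y ω) (e ω)
        (fun i => (hloc ω i).1) (fun i => (hloc ω i).2.1) (fun i => (hloc ω i).2.2)) (hw ω hω)
    have h2 : ∑ k, ∑ ω ∈ S, w ω * (e ω k * ∏ i ∈ univ.erase k, y ω i) ≤
        ∑ k : Fin m, (X * (Er k * ∏ i ∈ univ.erase k, Tr i) + Q) := by
      apply sum_le_sum
      intro k _
      have := (abs_le.1 (hB k)).2
      linarith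
    rw [sum_add_distrib, sum_const, card_univ, Fintype.card_fin, nsmul_eq_mul, ← mul_sum] at h2
    have h3 := (abs_le.1 hA).1
    have h4 : X * ((∏ i, Tr i) - ∑ k, Er k * ∏ i ∈ univ.erase k, Tr i) - (m + 1) * Q =
      X * (∏ i, Tr i) - Q - (X * (∑ k, Er k * ∏ i ∈ univ.erase k, Tr i) + m * Q) := by
      ring
    rw [h4]
    linarith

theorem sum_inj_le {ι : Type} (s : Finset ι) (t : Finset (Finset ℕ)) (f : ι → Finset ℕ)
    (e : Finset ℕ → ℝ) (hmap : ∀ x ∈ s, f x ∈ t) (hinj : ∀ x ∈ s, ∀ y ∈ s, f x = f y → x = y)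
    (h0 : ∀ U ∈ t, 0 ≤ e U) : ∑ x ∈ s, e (f x) ≤ ∑ U ∈ t, e U := by
  classical
  have h1 : ∑ U ∈ s.image f, e U = ∑ x ∈ s, e (f x) :=
    sum_image (fun x hx y hy h => hinj x hx y hy h)
  rw [← h1]
  apply sum_le_sum_of_subset_of_nonneg
  · intro U hU
    rw [mem_image] at hU
    obtain ⟨x, hx, rfl⟩ := hU
    exact hmap x hx
  · intro U hU _
    exact h0 U hU

/-- the sum of the relative errors -/
theorem tail_b (b J : ℕ) :
    ∑ i : Fin J, (1 / 2 : ℝ) ^ (2 * b + 2 * (J - 1 - (i : ℕ)) + 1) ≤ 2 / 3 * (1 / 4) ^ b := by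
  rw [Fin.sum_univ_eq_sum_range (fun i => (1 / 2 : ℝ) ^ (2 * b + 2 * (J - 1 - i) + 1)) J,
    sum_range_reflect (fun k => (1 / 2 : ℝ) ^ (2 * b + 2 * k + 1)) J]
  have h2 : ∀ J : ℕ, ∑ k ∈ range J, (1 / 2 : ℝ) ^ (2 * b + 2 * k + 1) ≤
      2 / 3 * (1 / 4) ^ b - 2 / 3 * (1 / 4) ^ b * (1 / 4) ^ J := by
    intro J
    induction J with
    | zero => simp
    | succ J ih =>
      rw [sum_range_succ]
      have h3 : (1 / 2 : ℝ) ^ (2 * b + 2 * J + 1) = 1 / 2 * ((1 / 4) ^ b * (1 / 4) ^ J) := by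
        rw [pow_add, pow_add, pow_mul, pow_mul]; norm_num; ring
      have h4 : (0 : ℝ) ≤ (1 / 4) ^ b * (1 / 4) ^ J := by positivity
      rw [h3, pow_succ]
      linarith
  have h5 : (0 : ℝ) ≤ 2 / 3 * (1 / 4) ^ b * (1 / 4) ^ J := by positivity
  linarith [h2 J]

end Pool.Agent.H20R2.FL

namespace Pool.Agent.H20R2

open Pool.Agent.Helper112.LP Pool.Agent.Helper112.LP.Kba Pool.Agent.Helper112.LP.Kbh
open Pool.Agent.H483R2.BHKD FL

/-- EN1: the fundamental lemma -/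
theorem fLem : Pool.Agent.H410R2.EN.FLem := by
  classical
  intro κ
  obtain ⟨CM, hCM, hM⟩ := mertens_group
  set L : ℝ := Real.log 2 + CM with hLdef
  have hlog2 : 0 < Real.log 2 := Real.log_pos (by norm_num)
  have hL0 : 0 < L := by rw [hLdef]; linarith
  have hLs : ∀ i : ℕ, ∑ l ∈ Gj (i + 1), (1 : ℝ) / l ≤ L := by
    intro i
    have h1 := (abs_le.1 (hM (i + 1) (by omega))).2
    have h2 : CM / 2 ^ (i + 1) ≤ CM := div_le_self hCM.le (one_le_pow₀ (by norm_num))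
    rw [hLdef]; linarith
  obtain ⟨N, hN⟩ := exists_nat_ge (21 * (κ * L))
  refine ⟨N + 2 * κ + 10, by omega, ?_⟩
  intro b J z0 P g hb hz0 hP hg Ω w hit A err hw hA hyp
  have hκ0 : (0 : ℝ) ≤ κ := Nat.cast_nonneg κ
  set x0 : ℝ := 2 * (κ * L) with hx0
  have hx00 : 0 ≤ x0 := by positivity
  set v : ℝ := Real.exp (-(2 * x0)) with hv
  have hv0 : 0 < v := Real.exp_pos _
  -- primes of P are less than 2^2^J
  have hPlt : ∀ p ∈ P, p < 2 ^ 2 ^ J := by
    intro p hp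
    obtain ⟨h1, h2, h3⟩ := hP p hp
    rcases lt_or_eq_of_le h3 with h | h
    · exact h
    · exfalso
      have h4 : 2 ∣ p := by rw [h]; exact dvd_pow_self 2 (by positivity)
      have h5 : p = 2 := ((Nat.prime_dvd_prime_iff_eq Nat.prime_two h1).1 h4).symm
      omega
  set bb : Fin J → ℕ := fun i => 2 * b + 2 * (J - 1 - (i : ℕ)) with hbdef
  set Pi : Fin J → Finset ℕ := fun i => P.filter (fun p => p ∈ Gj ((i : ℕ) + 1)) with hPdef
  have hPG : ∀ i, Pi i ⊆ Gj ((i : ℕ) + 1) := fun i p hp => (mem_filter.1 hp).2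
  have hPiP : ∀ i, Pi i ⊆ P := fun i => filter_subset _ _
  have hU : bhU Pi = P := by
    ext p
    unfold bhU
    rw [mem_biUnion]
    constructor
    · rintro ⟨i, _, hi⟩
      exact hPiP i hi
    · intro hp
      obtain ⟨i, hi⟩ := bh_cover (hP p hp).1 (hPlt p hp)
      exact ⟨i, mem_univ _, mem_filter.2 ⟨hp, hi⟩⟩
  have hbe : ∀ i, Even (bb i) := fun i => by
    simp only [hbdef]
    exact (even_two_mul _).add (even_two_mul _)
  -- the integers
  set n : ℕ → ℕ := fun m => ∏ p ∈ P.filter (fun p => hit p m), p with hn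
  have hdvd : ∀ p ∈ P, ∀ m, p ∣ n m ↔ hit p m := by
    intro p hp m
    constructor
    · intro h
      simp only [hn] at h
      rw [Prime.dvd_finsetProd_iff (hP p hp).1.prime] at h
      obtain ⟨q, hq, hpq⟩ := h
      rw [mem_filter] at hq
      have := (Nat.prime_dvd_prime_iff_eq (hP p hp).1 (hP q hq.1).1).1 hpq
      rw [this]; exact hq.2
    · intro h
      exact dvd_prod_of_mem (fun p => p) (mem_filter.2 ⟨hp, h⟩)
  set D : ℕ := (2 ^ 2 ^ J) ^ ((N + 2 * κ + 10) * b) with hD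
  have hb1 : 1 ≤ b := by omega
  have hlev : ∀ T ∈ Fintype.piFinset (fun i => (Pi i).powerset.filter
      (fun U => U.card ≤ bb i + 1)), (∀ i, T i ⊆ Pi i) ∧ bhU T ⊆ P ∧ ∏ l ∈ bhU T, l ≤ D := by
    intro T hT
    rw [Fintype.mem_piFinset] at hT
    have h1 : ∀ i, T i ⊆ Pi i := fun i => mem_powerset.1 (mem_filter.1 (hT i)).1
    have h2 : ∀ i : Fin J, (T i).card ≤ 2 * b + 2 * (J - 1 - (i : ℕ)) + 1 :=
      fun i => (mem_filter.1 (hT i)).2
    refine ⟨h1, ?_, ?_⟩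
    · rw [← hU]; exact bhU_mono T Pi h1
    · have h3 := bh_level T (fun i => (h1 i).trans (hPG i)) h2
      refine h3.trans ?_
      rw [hD]
      apply Nat.pow_le_pow_right (by positivity)
      nlinarith
  have H : ∀ T ∈ Fintype.piFinset (fun i => (Pi i).powerset.filter (fun U => U.card ≤ bb i + 1)),
      |∑ ω ∈ Ω.filter (fun ω => ∀ i, ∀ l ∈ T i, l ∣ n ω), w ω - A * ∏ i, ∏ l ∈ T i, g l|
        ≤ err (bhU T) := by
    intro T hT
    obtain ⟨h1, h2, h3⟩ := hlev T hT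
    have hTG : ∀ i, T i ⊆ Gj ((i : ℕ) + 1) := fun i => (h1 i).trans (hPG i)
    have h4 := hyp (bhU T) h2 h3
    rw [bh_pT_eq T hTG g]
    have h5 : (Ω.filter (fun ω => ∀ i, ∀ l ∈ T i, l ∣ n ω)) =
        Ω.filter (fun m => ∀ p ∈ bhU T, hit p m) := by
      refine filter_congr fun ω _ => ?_
      rw [all_bhU T (fun l => l ∣ n ω)]
      constructor
      · intro h p hp
        exact (hdvd p (h2 hp) ω).1 (h p hp)
      · intro h p hp
        exact (hdvd p (h2 hp) ω).2 (h p hp)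
    rw [h5]
    exact h4
  have hmain := w_abs J Pi bb hbe g Ω w hw n A (fun T => err (bhU T)) H
  -- the total error
  set Es : ℝ := ∑ T ∈ P.powerset.filter (fun T : Finset ℕ => ∏ p ∈ T, p ≤ D), err T with hEs
  have herr0 : ∀ T ∈ P.powerset.filter (fun T : Finset ℕ => ∏ p ∈ T, p ≤ D), 0 ≤ err T := by
    intro T hT
    rw [mem_filter, mem_powerset] at hT
    exact (abs_nonneg _).trans (hyp T hT.1 hT.2)
  have hQ : ∑ T ∈ Fintype.piFinset (fun i => (Pi i).powerset.filter (fun U => U.card ≤ bb i + 1)),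
      err (bhU T) ≤ Es := by
    have hinj : ∀ T ∈ Fintype.piFinset (fun i => (Pi i).powerset.filter
        (fun U => U.card ≤ bb i + 1)), ∀ T' ∈ Fintype.piFinset (fun i => (Pi i).powerset.filter
        (fun U => U.card ≤ bb i + 1)), bhU T = bhU T' → T = T' := by
      intro T hT T' hT' h
      obtain ⟨h1, _, _⟩ := hlev T hT
      obtain ⟨h1', _, _⟩ := hlev T' hT'
      have h2 : ∀ i, T i ⊆ Gj ((i : ℕ) + 1) := fun i => (h1 i).trans (hPG i)
      have h2' : ∀ i, T' i ⊆ Gj ((i : ℕ) + 1) := fun i => (h1' i).trans (hPG i)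
      funext i
      ext l
      have aux : ∀ T T' : Fin J → Finset ℕ, (∀ i, T i ⊆ Gj ((i : ℕ) + 1)) →
          (∀ i, T' i ⊆ Gj ((i : ℕ) + 1)) → bhU T = bhU T' → l ∈ T i → l ∈ T' i := by
        intro T T' h1 h1' hU hl
        have hlU : l ∈ bhU T' := by
          rw [← hU]; unfold bhU; exact mem_biUnion.2 ⟨i, mem_univ _, hl⟩
        unfold bhU at hlU
        obtain ⟨j, _, hj⟩ := mem_biUnion.1 hlU
        have := bh_Gj_disj (h1 i hl) (h1' j hj)
        have hij : i = j := Fin.ext this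
        rw [hij]; exact hj
      exact ⟨aux T T' h2 h2' h, aux T' T h2' h2 h.symm⟩
    apply sum_inj_le _ _ bhU err _ hinj herr0
    intro T hT
    obtain ⟨_, h2, h3⟩ := hlev T hT
    rw [mem_filter, mem_powerset]
    exact ⟨h2, h3⟩
  have hEs0 : 0 ≤ Es := sum_nonneg herr0
  have hSf : (Ω.filter (fun ω => ∀ i, ∀ l ∈ Pi i, ¬ l ∣ n ω)) =
      Ω.filter (fun m => ∀ p ∈ P, ¬ hit p m) := by
    refine filter_congr fun ω _ => ?_
    rw [all_bhU Pi (fun l => ¬ l ∣ n ω), hU]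
    constructor
    · intro h p hp h'
      exact h p hp ((hdvd p hp ω).2 h')
    · intro h p hp h'
      exact h p hp ((hdvd p hp ω).1 h')
  rw [hSf] at hmain
  have hVeq : ∏ l ∈ P, (1 - g l) = ∏ i, ∏ l ∈ Pi i, (1 - g l) := by
    rw [bh_pT_eq Pi hPG (fun l => 1 - g l), hU]
  rw [hVeq]
  set V : Fin J → ℝ := fun i => ∏ l ∈ Pi i, (1 - g l) with hVdef
  set Tr : Fin J → ℝ := fun i => bhA g (bb i) (Pi i) with hTr
  set Er : Fin J → ℝ := fun i => bhE g (bb i + 1) (Pi i) with hEr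
  have hTrdef : ∀ i, ∑ U ∈ (Pi i).powerset.filter (fun U => U.card ≤ bb i),
      (-1) ^ U.card * ∏ l ∈ U, g l = Tr i := fun i => rfl
  have hErdef : ∀ i, ∑ U ∈ (Pi i).powersetCard (bb i + 1), ∏ l ∈ U, g l = Er i := fun i => rfl
  simp only [hTrdef, hErdef] at hmain
  have hpb : ∀ p ∈ P, (2 * κ + 10 : ℝ) ≤ (p : ℝ) - 1 := by
    intro p hp
    have h2 : 2 * κ + 10 + 1 ≤ p := by
      have := (hP p hp).2.1
      omega
    have h3 : ((2 * κ + 10 + 1 : ℕ) : ℝ) ≤ p := by exact_mod_cast h2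
    push_cast at h3
    linarith
  have hgk : ∀ p ∈ P, g p ≤ 1 / 2 := by
    intro p hp
    have h1 := (hg p hp).2
    have h2 := hpb p hp
    refine h1.trans ?_
    rw [div_le_iff₀ (by linarith)]
    linarith
  have hg2 : ∀ p ∈ P, g p ≤ 2 * κ * (1 / (p : ℝ)) := by
    intro p hp
    have h1 := (hg p hp).2
    have h2 := hpb p hp
    refine h1.trans ?_
    rw [mul_one_div, div_le_div_iff₀ (by linarith) (by linarith)]
    nlinarith
  have hgb : ∀ i, ∀ l ∈ Pi i, 0 ≤ g l ∧ g l ≤ 1 := fun i l hl =>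
    ⟨(hg l (hPiP i hl)).1, by linarith [hgk l (hPiP i hl)]⟩
  have hbonf : ∀ i, V i ≤ Tr i ∧ Tr i ≤ V i + Er i := by
    intro i
    have h := bh_bonf g (Pi i) (hgb i) (bb i)
    rw [(hbe i).neg_one_pow, one_mul] at h
    constructor
    · have := h.1; simp only [hVdef, hTr]; linarith
    · have := h.2; simp only [hVdef, hTr, hEr]; linarith
  have hgsum : ∀ i, ∑ l ∈ Pi i, g l ≤ x0 := by
    intro i
    calc ∑ l ∈ Pi i, g l ≤ ∑ l ∈ Pi i, 2 * (κ : ℝ) * (1 / (l : ℝ)) := by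
          apply sum_le_sum
          intro l hl
          exact hg2 l (hPiP i hl)
      _ = 2 * κ * ∑ l ∈ Pi i, 1 / (l : ℝ) := by rw [mul_sum]
      _ ≤ 2 * κ * ∑ l ∈ Gj ((i : ℕ) + 1), 1 / (l : ℝ) := by
          apply mul_le_mul_of_nonneg_left _ (by positivity)
          apply sum_le_sum_of_subset_of_nonneg (hPG i)
          intro l _ _
          positivity
      _ ≤ 2 * κ * L := mul_le_mul_of_nonneg_left (hLs i) (by positivity)
      _ = x0 := by rw [hx0]; ring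
  have hVv : ∀ i, v ≤ V i := by
    intro i
    have h1 : Real.exp (-(2 * ∑ l ∈ Pi i, g l)) ≤ V i := by
      have h2 : -(2 * ∑ l ∈ Pi i, g l) = ∑ l ∈ Pi i, -(2 * g l) := by
        rw [mul_sum, ← sum_neg_distrib]
      rw [h2, Real.exp_sum]
      refine prod_le_prod (fun l _ => (Real.exp_pos _).le) fun l hl => ?_
      exact bh_inv_ge (hgb i l hl).1 (hgk l (hPiP i hl))
    refine le_trans ?_ h1
    rw [hv]
    exact Real.exp_le_exp.2 (by linarith [hgsum i])
  have hEr0 : ∀ i, 0 ≤ Er i := fun i => bhE_nonneg _ _ _ fun l hl => (hgb i l hl).1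
  have hErle : ∀ i, Er i ≤ x0 ^ (bb i + 1) / (bb i + 1).factorial := by
    intro i
    refine (bhE_le g (Pi i) (fun l hl => (hgb i l hl).1) (bb i + 1)).trans ?_
    have h0 : 0 ≤ ∑ l ∈ Pi i, g l := sum_nonneg fun l hl => (hgb i l hl).1
    have h1 := hgsum i
    gcongr
  have hErv : ∀ i, Er i / v ≤ (1 / 2) ^ (bb i + 1) := by
    intro i
    have h1 : Er i / v = Er i * Real.exp (2 * x0) := by
      rw [hv, Real.exp_neg, div_inv_eq_mul]
    rw [h1]
    refine le_trans (mul_le_mul_of_nonneg_right (hErle i) (Real.exp_pos _).le) ?_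
    apply tail_one x0 hx00 (bb i + 1) (by omega)
    have h2 : ((2 * N : ℕ) : ℝ) ≤ ((bb i + 1 : ℕ) : ℝ) := by
      have : 2 * N ≤ bb i + 1 := by simp only [hbdef]; omega
      exact_mod_cast this
    push_cast at h2 ⊢
    rw [hx0]
    linarith
  set s : ℝ := ∑ i, Er i / v with hs
  have hs0 : 0 ≤ s := sum_nonneg fun i _ => div_nonneg (hEr0 i) hv0.le
  have hErsum : s ≤ 2 / 3 * (1 / 4) ^ b :=
    le_trans (sum_le_sum fun i _ => hErv i) (tail_b b J)
  have h4b : (1 / 4 : ℝ) ^ b ≤ 1 / 4 * (1 / 2) ^ b * 2 := by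
    have h1 : (1 / 4 : ℝ) ^ b = (1 / 2) ^ b * (1 / 2) ^ b := by
      rw [← mul_pow]; norm_num
    have h2 : (1 / 2 : ℝ) ^ b ≤ (1 / 2) ^ 1 := pow_le_pow_of_le_one (by norm_num) (by norm_num) hb1
    have h3 : (0 : ℝ) ≤ (1 / 2) ^ b := by positivity
    rw [h1]
    nlinarith
  have hhb : (1 / 2 : ℝ) ^ b ≤ 1 / 2 := by
    have h2 : (1 / 2 : ℝ) ^ b ≤ (1 / 2) ^ 1 := pow_le_pow_of_le_one (by norm_num) (by norm_num) hb1
    linarith
  have hhb0 : (0 : ℝ) ≤ (1 / 2) ^ b := by positivity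
  have hs1 : 2 * s ≤ (1 / 2) ^ b := by linarith
  have hs2 : s ≤ 1 / 4 := by linarith
  have hV0 : ∀ i, 0 < V i := fun i => lt_of_lt_of_le hv0 (hVv i)
  have hTr0 : ∀ i, 0 < Tr i := fun i => lt_of_lt_of_le (hV0 i) (hbonf i).1
  have hV00 : 0 ≤ ∏ i, V i := prod_nonneg fun i _ => (hV0 i).le
  have hTr00 : 0 ≤ ∏ i, Tr i := prod_nonneg fun i _ => (hTr0 i).le
  have hJ0 : (0 : ℝ) ≤ J := Nat.cast_nonneg J
  rw [abs_le]
  constructor
  · -- lower bound
    have hB : (1 - (1 / 2) ^ b) * ∏ i, V i ≤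
        (∏ i, Tr i) - ∑ k, Er k * ∏ i ∈ univ.erase k, Tr i := by
      have hTp : ∏ i, V i ≤ ∏ i, Tr i := prod_le_prod (fun i _ => (hV0 i).le)
        fun i _ => (hbonf i).1
      have hk : ∀ k, Er k * ∏ i ∈ univ.erase k, Tr i ≤ Er k / v * ∏ i, Tr i := by
        intro k
        have h1 : ∏ i, Tr i = Tr k * ∏ i ∈ univ.erase k, Tr i :=
          (mul_prod_erase univ Tr (mem_univ k)).symm
        have h2 : 0 ≤ ∏ i ∈ univ.erase k, Tr i := prod_nonneg fun i _ => (hTr0 i).le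
        rw [h1, div_mul_eq_mul_div, le_div_iff₀ hv0]
        have h3 : v ≤ Tr k := (hVv k).trans (hbonf k).1
        have h4 : Er k * (∏ i ∈ univ.erase k, Tr i) * v ≤
            Er k * (∏ i ∈ univ.erase k, Tr i) * Tr k :=
          mul_le_mul_of_nonneg_left h3 (mul_nonneg (hEr0 k) h2)
        linarith
      have hsum : ∑ k, Er k * ∏ i ∈ univ.erase k, Tr i ≤ (1 / 2) ^ b * ∏ i, Tr i := by
        calc ∑ k, Er k * ∏ i ∈ univ.erase k, Tr i ≤ ∑ k, Er k / v * ∏ i, Tr i :=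
              sum_le_sum fun k _ => hk k
          _ = s * ∏ i, Tr i := by rw [← sum_mul]
          _ ≤ (1 / 2) ^ b * ∏ i, Tr i :=
              mul_le_mul_of_nonneg_right (by linarith) hTr00
      have h6 : (1 - (1 / 2 : ℝ) ^ b) * ∏ i, V i ≤ (1 - (1 / 2) ^ b) * ∏ i, Tr i :=
        mul_le_mul_of_nonneg_left hTp (by linarith)
      linarith
    have hC := mul_le_mul_of_nonneg_left hB hA
    have hD1 := hmain.2
    have hE1 : ((J : ℝ) + 1) * (∑ T ∈ Fintype.piFinset (fun i => (Pi i).powerset.filter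
        (fun U => U.card ≤ bb i + 1)), err (bhU T)) ≤ (J + 2) * Es := by
      have h1 := mul_le_mul_of_nonneg_left hQ (show (0 : ℝ) ≤ (J : ℝ) + 1 by linarith)
      nlinarith
    linarith
  · -- upper bound
    have hexp : Real.exp s ≤ 1 + (1 / 2) ^ b := by
      have h1 := Real.abs_exp_sub_one_sub_id_le (x := s) (by rw [abs_of_nonneg hs0]; linarith)
      have h2 := (abs_le.1 h1).2
      nlinarith
    have hA1 : ∏ i, Tr i ≤ (1 + (1 / 2) ^ b) * ∏ i, V i := by
      have h1 : ∏ i, Tr i ≤ ∏ i, V i * Real.exp (Er i / v) := by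
        refine prod_le_prod (fun i _ => (hTr0 i).le) fun i _ => ?_
        refine (hbonf i).2.trans ?_
        have h2 := Real.add_one_le_exp (Er i / v)
        have h3 : V i * (Er i / v + 1) ≤ V i * Real.exp (Er i / v) :=
          mul_le_mul_of_nonneg_left h2 (hV0 i).le
        refine le_trans ?_ h3
        have h4 : Er i ≤ V i * (Er i / v) := by
          rw [← mul_div_assoc, le_div_iff₀ hv0, mul_comm (V i)]
          exact mul_le_mul_of_nonneg_left (hVv i) (hEr0 i)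
        linarith
      rw [prod_mul_distrib, ← Real.exp_sum] at h1
      calc ∏ i, Tr i ≤ (∏ i, V i) * Real.exp s := h1
        _ ≤ (∏ i, V i) * (1 + (1 / 2) ^ b) := mul_le_mul_of_nonneg_left hexp hV00
        _ = _ := by ring
    have hB := mul_le_mul_of_nonneg_left hA1 hA
    have hD1 := hmain.1
    have hE1 : Es ≤ (J + 2) * Es := by nlinarith
    linarith

end Pool.Agent.H20R2
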